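import Pool.Agent.Helper70.NS.Statement
import Pool.Agent.Helper90.NS.Local
import Pool.Agent.Helper90.NS.One
import Pool.Agent.Helper15.PF.Main
import Pool.Agent.Helper64.CPB.Converse

/-!
# Stability of nilpotence under squares

Let `S` be a generic member of `|mL|` on `Z = X × X`. If `C⁺(X)` holds, nilpotence holds for `Z`, hence for
`S`. If it passes from `S^k` to `S^(2k)` for all `k`, it holds for `S^(2^r)`, so `B(X)` holds. Over all
fields of one characteristic one starts with the varieties over the algebraic closure of the prime field.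
-/

namespace Pool.Agent.Helper70.NS

open Pool.Agent.Helper29.CPB Pool.Agent.Helper89.NN Pool.Agent.Helper90.NS Pool.Agent.Helper15.PF

universe u v

variable {F : Type u} [Field F] [CharZero F] {X Z S : Variety.{u, v} F}

/-- `C⁺(X)` implies nilpotence for `X × X`. -/
theorem nilpotence_square {μ : X.H → X.H → Z.H} (hsp : SelfProduct X Z μ) (hC : X.CPlus) :
    Nilpotence Z := by
  obtain ⟨τ, hsq⟩ := hsp.isSquare
  intro a ha hn
  refine NumTriv.isNilpotent (sgn_mem_square hsq (Variety.sgn_mem X hC)) ha fun v hv => ?_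
  have hv' : v ∈ Z.corr 0 := by simpa using hv
  have h := hn v hv'
  rw [← mul_assoc]
  exact h

omit [CharZero F] in
private theorem large_lt {P : Powers S} (G : GenericMember Z S P) :
    Module.finrank F Z.H < Module.finrank F (LinearMap.ker G.dn) := by
  have := G.large
  omega

private theorem exists_two_pow (n : ℕ) : ∃ r : ℕ, n ≤ 2 * 2 ^ r :=
  ⟨n, by have := Nat.lt_two_pow_self (n := n); omega⟩

/-- `C⁺(X)` known: nilpotence for `S^1` holds. -/
theorem nilpotence_section_one {μ : X.H → X.H → Z.H} (hsp : SelfProduct X Z μ) (hC : X.CPlus)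
    {P : Powers S} (G : GenericMember Z S P) : P.Nilpotence 1 :=
  nilpotence_one' P (nilpotence_section G.toGenericSection (large_lt G) (nilpotence_square hsp hC))

theorem lefschetz_of_stable {μ : X.H → X.H → Z.H} (hsp : SelfProduct X Z μ) (hX : 1 ≤ X.dim)
    (hC : X.CPlus) {P : Powers S} (G : GenericMember Z S P)
    (h : ∀ k, P.Nilpotence k → P.Nilpotence (2 * k)) : X.Lefschetz := by
  have h1 : ∀ r, P.Nilpotence (2 ^ r) := by
    intro r
    induction r with
    | zero => exact nilpotence_section_one hsp hC G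
    | succ r ih => rw [pow_succ, mul_comm]; exact h _ ih
  obtain ⟨r, hr⟩ := exists_two_pow (Module.finrank F S.H + 2)
  exact lefschetz_of_nilpotence hsp hX G hr (h1 r)

theorem lefschetz_of_stable_num {μ : X.H → X.H → Z.H} (hsp : SelfProduct X Z μ) (hX : 1 ≤ X.dim)
    (hC : X.CPlus) {P : Powers S} (G : GenericMember Z S P) (hR : RationalTrace P 1)
    (h : ∀ k, NumCPlus P k → NumCPlus P (2 * k)) : X.Lefschetz := by
  have h1 : ∀ r, NumCPlus P (2 ^ r) := by
    intro r
    induction r with
    | zero =>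
      exact numCPlus_section P G.toGenericSection (large_lt G) (nilpotence_square hsp hC) hR
    | succ r ih => rw [pow_succ, mul_comm]; exact h _ ih
  obtain ⟨r, hr⟩ := exists_two_pow (Module.finrank F S.H + 2)
  exact lefschetz_of_nilpotence hsp hX G hr
    (nilpotence_of_numTrace P (numTrace_of_numCPlus P (h1 r)))

/-- **One variety.** If `C⁺(X)` holds then `B(X)` holds if and only if nilpotence passes from `S^k`
to `S^(2k)` for all `k`; the same for `C⁺` up to numerical equivalence. -/
theorem stable_iff {μ : X.H → X.H → Z.H} (hsp : SelfProduct X Z μ) (hX : 1 ≤ X.dim)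
    (hC : X.CPlus) {P : Powers S} (G : GenericMember Z S P) :
    (X.Lefschetz ↔ ∀ k, P.Nilpotence k → P.Nilpotence (2 * k)) ∧
      (RationalTrace P 1 → (X.Lefschetz ↔ ∀ k, NumCPlus P k → NumCPlus P (2 * k))) := by
  refine ⟨⟨fun h k _ => ?_, lefschetz_of_stable hsp hX hC G⟩, fun hR =>
    ⟨fun h k _ => ?_, lefschetz_of_stable_num hsp hX hC G hR⟩⟩
  · exact nilpotence_of_cplus P (cplus_section_of_lefschetz hsp hX G.toGenericSection h) _
  · exact numCPlus_of_cplus P (cplus_section_of_lefschetz hsp hX G.toGenericSection h) _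

/-- In dimension `0` the Lefschetz standard conjecture is trivial. -/
private theorem lefschetz_zero (h0 : X.dim = 0) : X.Lefschetz := by
  apply lefschetz_of_inverse
  intro c hc hcn
  omega

/-- **All fields of one characteristic.** -/
theorem PowerFields.tfae (G : PowerFields.{u, v} F) :
    [∀ X ∈ G.all, X.CPlus, ∀ X ∈ G.all, X.Kunneth, ∀ X ∈ G.all, X.Lefschetz,
      ∀ X ∈ G.closed 0, X.Lefschetz,
      ∀ X ∈ G.closed 0, 1 ≤ X.dim → ∃ (Z S : Variety.{u, v} F) (μ : X.H → X.H → Z.H)
        (h : S ∈ G.all) (K : ℕ), SelfProduct X Z μ ∧ Nonempty (GenericMember Z S (G.pow S h)) ∧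
          Module.finrank F S.H + 2 ≤ 2 * K ∧ NumCPlus (G.pow S h) K,
      ∀ X, ∀ h : X ∈ G.all, ∀ k, (G.pow X h).Nilpotence k,
      ∀ X, ∀ h : X ∈ G.all, ∀ k, NumCPlus (G.pow X h) k].TFAE := by
  have hBC : (∀ X ∈ G.all, X.Lefschetz) → ∀ X ∈ G.all, X.CPlus := fun h X hX =>
    cplus_of_kunneth X (kunneth_of_lefschetz X (h X hX))
  tfae_have 4 → 3 := G.lefschetz
  tfae_have 3 → 2 := fun h X hX => kunneth_of_lefschetz X (h X hX)
  tfae_have 2 → 1 := fun h X hX => cplus_of_kunneth X (h X hX)
  tfae_have 1 → 7 := fun h X hX k => numCPlus_of_cplus (G.pow X hX) (h X hX) k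
  tfae_have 7 → 6 := fun h X hX k =>
    nilpotence_of_numTrace _ (numTrace_of_numCPlus _ (h X hX k))
  tfae_have 7 → 5 := by
    intro h X hX hpos
    obtain ⟨Z, μ, hsp, S, hS, hG⟩ := G.members X hX hpos
    exact ⟨Z, S, μ, hS, Module.finrank F S.H + 2, hsp, hG, by omega, h S hS _⟩
  tfae_have 6 → 4 := by
    intro h X hX
    rcases Nat.eq_zero_or_pos X.dim with h0 | hpos
    · exact lefschetz_zero h0
    · obtain ⟨Z, μ, hsp, S, hS, ⟨M⟩⟩ := G.members X hX hpos
      exact lefschetz_of_nilpotence hsp hpos M (K := Module.finrank F S.H + 2) (by omega)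
        (h S hS _)
  tfae_have 5 → 4 := by
    intro h X hX
    rcases Nat.eq_zero_or_pos X.dim with h0 | hpos
    · exact lefschetz_zero h0
    · obtain ⟨Z, S, μ, hS, K, hsp, ⟨M⟩, hK, hN⟩ := h X hX hpos
      exact lefschetz_of_nilpotence hsp hpos M hK
        (nilpotence_of_numTrace _ (numTrace_of_numCPlus _ hN))
  tfae_finish

/-- **All fields of one characteristic, `C⁺` being known over the algebraic closure of the prime
field (Katz–Messing, characteristic `p > 0`):** `C⁺` holds for all varieties if and only if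
nilpotence of numerically trivial correspondences passes from `X^k` to `X^(2k)`, if and only if `C⁺` up
to numerical equivalence passes from `X^k` to `X^(2k)`. -/
theorem PowerFields.stable_tfae (G : PowerFields.{u, v} F) (h0 : ∀ X ∈ G.closed 0, X.CPlus) :
    [∀ X ∈ G.all, X.CPlus,
      ∀ X, ∀ h : X ∈ G.all, ∀ k, (G.pow X h).Nilpotence k → (G.pow X h).Nilpotence (2 * k),
      ∀ X, ∀ h : X ∈ G.all, ∀ k, NumCPlus (G.pow X h) k → NumCPlus (G.pow X h) (2 * k)].TFAE := by
  have h4 : (∀ X ∈ G.closed 0, X.Lefschetz) → ∀ X ∈ G.all, X.CPlus := fun h =>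
    (G.tfae.out 3 0).mp h
  tfae_have 1 → 2 := fun h X hX k _ => nilpotence_of_cplus _ (h X hX) _
  tfae_have 1 → 3 := fun h X hX k _ => numCPlus_of_cplus _ (h X hX) _
  tfae_have 2 → 1 := by
    intro h
    refine h4 fun X hX => ?_
    rcases Nat.eq_zero_or_pos X.dim with hd | hpos
    · exact lefschetz_zero hd
    · obtain ⟨Z, μ, hsp, S, hS, ⟨M⟩⟩ := G.members X hX hpos
      exact lefschetz_of_stable hsp hpos (h0 X hX) M (h S hS)
  tfae_have 3 → 1 := by
    intro h
    refine h4 fun X hX => ?_
    rcases Nat.eq_zero_or_pos X.dim with hd | hpos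
    · exact lefschetz_zero hd
    · obtain ⟨Z, μ, hsp, S, hS, ⟨M⟩⟩ := G.members X hX hpos
      exact lefschetz_of_stable_num hsp hpos (h0 X hX) M (G.rational S hS) (h S hS)
  tfae_finish

end Pool.Agent.Helper70.NS
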