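import Pool.Agent.Helper90.NS.Statement
import Pool.Agent.Helper15.PF.Statement

/-!
# The varieties over all perfect fields of one characteristic, with the cycles on their powers

Addition to `Pool.Agent.Helper15.PF.Statement` and `Pool.Agent.Helper90.NS.Statement`.
-/

namespace Pool.Agent.Helper70.NS

open Pool.Agent.Helper29.CPB Pool.Agent.Helper89.NN Pool.Agent.Helper90.NS Pool.Agent.Helper15.PF

universe u v

/-- The smooth projective varieties over the perfect fields of one characteristic, together with the
algebraic cycles on their powers. -/
structure PowerFields (F : Type u) [Field F] extends Fields.{u, v} F where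
  /-- the algebraic cycles on the powers of `X` -/
  pow : ∀ X ∈ all, Powers X
  /-- the traces of correspondences on the even cohomology are rational (Katz–Messing and
  specialisation) -/
  rational : ∀ X, ∀ h : X ∈ all, RationalTrace (pow X h) 1
  /-- generic members of `|mL|`, `m` large, on the squares of the varieties over the algebraic
  closure of the prime field, and their vanishing cycles -/
  members : ∀ X ∈ closed 0, 1 ≤ X.dim → ∃ (Z : Variety.{u, v} F) (μ : X.H → X.H → Z.H),
    SelfProduct X Z μ ∧ ∃ (S : Variety.{u, v} F) (h : S ∈ all),
      Nonempty (GenericMember Z S (pow S h))

end Pool.Agent.Helper70.NS
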